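import Pool.Agent.H93.SP.Targets

/-!
# INJ: adding a point is injective on rational homology
-/

namespace Pool.Agent.H33.SP.INJ

open Topology Set
open Pool.Agent.H59 Pool.Agent.H64.LB Pool.Agent.H93.SPB

noncomputable section

variable {Y : Type} [TopologicalSpace Y] (y0 : Y)

/-- padding a tuple by `y0` -/
def ee (j N : ℕ) : C(Fin j → Y, Fin N → Y) :=
  ⟨fun x i => if h : i.val < j then x ⟨i.val, h⟩ else y0, by
    refine continuous_pi fun i => ?_
    by_cases h : i.val < j
    · simp only [h, dite_true]; exact continuous_apply _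
    · simp only [h, dite_false]; exact continuous_const⟩

/-- dropping a coordinate -/
def drop (N : ℕ) (k : Fin (N + 1)) : C(Fin (N + 1) → Y, Fin N → Y) :=
  ⟨fun x i => x (k.succAbove i), by fun_prop⟩

theorem drop_perm (N : ℕ) (k : Fin (N + 1)) (s : Equiv.Perm (Fin (N + 1))) :
    ((proj N Y).comp (drop N k)).comp (permC s Y) = (proj N Y).comp (drop N (s k)) := by
  ext x
  let s' : Equiv.Perm (Fin N) := (finSuccAboveEquiv k).trans
    ((s.subtypeEquiv (p := fun a => a ≠ k) (q := fun a => a ≠ s k)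
      (fun a => by simp)).trans (finSuccAboveEquiv (s k)).symm)
  have hs' : ∀ i, (s k).succAbove (s' i) = s (k.succAbove i) := by
    intro i
    have h1 : finSuccAboveEquiv (s k) (s' i) =
        (s.subtypeEquiv (p := fun a => a ≠ k) (q := fun a => a ≠ s k)
          (fun a => by simp)) (finSuccAboveEquiv k i) := by
      simp [s']
    exact congrArg Subtype.val h1
  change proj N Y (fun i => x (s (k.succAbove i))) = proj N Y (fun i => x ((s k).succAbove i))
  have : (fun i => x (s (k.succAbove i))) = (fun i => x ((s k).succAbove i)) ∘ s' := by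
    funext i
    change x (s (k.succAbove i)) = x ((s k).succAbove (s' i))
    rw [hs']
  rw [this, proj_perm]

/-- sum over the dropped coordinates -/
def DD (q N : ℕ) : HH ℚ q (Fin (N + 1) → Y) →ₗ[ℚ] HH ℚ q (SP N Y) :=
  ∑ k : Fin (N + 1), HH.map ℚ q ((proj N Y).comp (drop N k))

theorem DD_apply (q N : ℕ) (x : HH ℚ q (Fin (N + 1) → Y)) :
    DD q N x = ∑ k : Fin (N + 1), HH.map ℚ q ((proj N Y).comp (drop N k)) x := by
  rw [DD, LinearMap.sum_apply]

theorem DD_perm (q N : ℕ) (s : Equiv.Perm (Fin (N + 1))) (x : HH ℚ q (Fin (N + 1) → Y)) :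
    DD q N (HH.map ℚ q (permC s Y) x) = DD q N x := by
  rw [DD_apply, DD_apply]
  have h1 : ∀ k : Fin (N + 1), HH.map ℚ q ((proj N Y).comp (drop N k))
      (HH.map ℚ q (permC s Y) x) = HH.map ℚ q ((proj N Y).comp (drop N (s k))) x := by
    intro k
    rw [← HH.map_comp, drop_perm]
  simp only [h1]
  exact Equiv.sum_comp s (fun k => HH.map ℚ q ((proj N Y).comp (drop N k)) x)

theorem DD_ker {N : ℕ} (h : TRN Y (N + 1)) (q : ℕ) (x : HH ℚ q (Fin (N + 1) → Y))
    (hx : HH.map ℚ q (proj (N + 1) Y) x = 0) : DD q N x = 0 := by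
  have h1 := congrArg (DD q N) ((h q).2 x hx)
  rw [map_sum, map_zero] at h1
  simp only [DD_perm] at h1
  rw [Finset.sum_const, ← Nat.cast_smul_eq_nsmul ℚ] at h1
  refine (smul_eq_zero.1 h1).resolve_left ?_
  rw [Finset.card_univ, Fintype.card_perm]
  exact_mod_cast (Nat.factorial_pos _).ne'

theorem drop_ee_ge (j N : ℕ) (hj : j ≤ N) (k : Fin (N + 1)) (hk : j ≤ k.val) :
    (drop N k).comp (ee y0 j (N + 1)) = ee y0 j N := by
  ext x i
  change (if h : (k.succAbove i).val < j then x ⟨(k.succAbove i).val, h⟩ else y0) =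
    if h : i.val < j then x ⟨i.val, h⟩ else y0
  by_cases hi : i.val < j
  · have h1 : k.succAbove i = i.castSucc := Fin.succAbove_of_castSucc_lt _ _ (by
      rw [Fin.lt_def]; simp; omega)
    have h2 : (k.succAbove i).val = i.val := by rw [h1]; rfl
    have h3 : (k.succAbove i).val < j := by omega
    rw [dif_pos h3, dif_pos hi]
    congr 1
    exact Fin.ext h2
  · have h3 : ¬ (k.succAbove i).val < j := by
      rcases Fin.castSucc_lt_or_lt_succ k i with h | h
      · rw [Fin.succAbove_of_castSucc_lt _ _ h]; simpa using hi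
      · rw [Fin.succAbove_of_lt_succ _ _ h]; simp; omega
    rw [dif_neg h3, dif_neg hi]

theorem drop_ee_lt (j N : ℕ) (k : Fin (N + 1)) (hk : k.val < j + 1) :
    (drop N k).comp (ee y0 (j + 1) (N + 1)) =
      (ee y0 j N).comp (drop j ⟨k.val, hk⟩) := by
  ext x i
  change (if h : (k.succAbove i).val < j + 1 then x ⟨(k.succAbove i).val, h⟩ else y0) =
    if h : i.val < j then x ((⟨k.val, hk⟩ : Fin (j + 1)).succAbove ⟨i.val, h⟩) else y0
  by_cases hik : i.val < k.val
  · have h1 : k.succAbove i = i.castSucc := Fin.succAbove_of_castSucc_lt _ _ (by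
      rw [Fin.lt_def]; simpa using hik)
    have h2 : (k.succAbove i).val = i.val := by rw [h1]; rfl
    have h3 : (k.succAbove i).val < j + 1 := by omega
    have h4 : i.val < j := by omega
    rw [dif_pos h3, dif_pos h4]
    congr 1
    apply Fin.ext
    have h5 : (⟨k.val, hk⟩ : Fin (j + 1)).succAbove ⟨i.val, h4⟩ = (⟨i.val, h4⟩ : Fin j).castSucc :=
      Fin.succAbove_of_castSucc_lt _ _ (by rw [Fin.lt_def]; simpa using hik)
    exact h2.trans (congrArg Fin.val h5).symm
  · have h1 : k.succAbove i = i.succ := Fin.succAbove_of_le_castSucc _ _ (by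
      rw [Fin.le_def]; simpa using hik)
    have h2 : (k.succAbove i).val = i.val + 1 := by rw [h1]; rfl
    by_cases h4 : i.val < j
    · have h3 : (k.succAbove i).val < j + 1 := by omega
      rw [dif_pos h3, dif_pos h4]
      congr 1
      apply Fin.ext
      have h5 : (⟨k.val, hk⟩ : Fin (j + 1)).succAbove ⟨i.val, h4⟩ = (⟨i.val, h4⟩ : Fin j).succ :=
        Fin.succAbove_of_le_castSucc _ _ (by rw [Fin.le_def]; simpa using hik)
      exact h2.trans (congrArg Fin.val h5).symm
    · have h3 : ¬ (k.succAbove i).val < j + 1 := by omega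
      rw [dif_neg h3, dif_neg h4]

theorem ee_self (N : ℕ) : ee y0 N N = ContinuousMap.id _ := by
  ext x i
  change (if h : i.val < N then x ⟨i.val, h⟩ else y0) = x i
  rw [dif_pos i.2]

theorem inc_ee (j N : ℕ) (hj : j ≤ N) :
    (spInc y0 N).comp ((proj N Y).comp (ee y0 j N)) = (proj (N + 1) Y).comp (ee y0 j (N + 1)) := by
  ext x
  change proj (N + 1) Y (Fin.snoc (α := fun _ => Y) (ee y0 j N x) y0) =
    proj (N + 1) Y (ee y0 j (N + 1) x)
  congr 1
  funext i
  refine Fin.lastCases ?_ (fun i => ?_) i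
  · rw [Fin.snoc_last]
    change y0 = if h : (Fin.last N).val < j then x ⟨(Fin.last N).val, h⟩ else y0
    rw [dif_neg (by simpa using hj)]
  · rw [Fin.snoc_castSucc]
    rfl

/-- the basic relation -/
theorem rel (h : ∀ N, TRN Y N) (j N q : ℕ) (hj : j ≤ N) (a : HH ℚ q (Fin j → Y))
    (hz : HH.map ℚ q (spInc y0 N) (HH.map ℚ q ((proj N Y).comp (ee y0 j N)) a) = 0) :
    ∑ k : Fin (N + 1), HH.map ℚ q ((proj N Y).comp ((drop N k).comp (ee y0 j (N + 1)))) a = 0 := by
  rw [← HH.map_comp, inc_ee y0 j N hj, HH.map_comp] at hz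
  have h1 := DD_ker (h (N + 1)) q _ hz
  rw [DD_apply] at h1
  rw [← h1]
  refine Finset.sum_congr rfl fun k _ => ?_
  rw [← HH.map_comp]
  rfl

theorem claim (h : ∀ N, TRN Y N) (N q : ℕ) (z : HH ℚ q (SP N Y))
    (hz : HH.map ℚ q (spInc y0 N) z = 0) :
    ∀ d j, j + d = N → ∃ a : HH ℚ q (Fin j → Y),
      HH.map ℚ q ((proj N Y).comp (ee y0 j N)) a = z := by
  intro d
  induction d with
  | zero =>
    intro j hj
    have hj' : j = N := by omega
    subst hj'
    obtain ⟨x, hx⟩ := (h j q).1 z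
    refine ⟨x, ?_⟩
    rw [ee_self, ContinuousMap.comp_id, hx]
  | succ d ih =>
    intro j hj
    obtain ⟨a, ha⟩ := ih (j + 1) (by omega)
    have h1 := rel y0 h (j + 1) N q (by omega) a (by rw [ha]; exact hz)
    -- split the sum
    have h2 : ∀ k : Fin (N + 1), HH.map ℚ q ((proj N Y).comp ((drop N k).comp
        (ee y0 (j + 1) (N + 1)))) a =
        (if j + 1 ≤ k.val then z else 0) + HH.map ℚ q ((proj N Y).comp (ee y0 j N))
          (if hk : k.val < j + 1 then HH.map ℚ q (drop j ⟨k.val, hk⟩) a else 0) := by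
      intro k
      by_cases hk : k.val < j + 1
      · rw [if_neg (by omega), dif_pos hk, zero_add, drop_ee_lt y0 j N k hk,
          ← HH.map_comp]
        rfl
      · rw [if_pos (by omega), dif_neg hk, map_zero, add_zero,
          drop_ee_ge y0 (j + 1) N (by omega) k (by omega), ha]
    simp only [h2] at h1
    rw [Finset.sum_add_distrib, ← map_sum, ← Finset.sum_filter, Finset.sum_const,
      ← Nat.cast_smul_eq_nsmul ℚ] at h1
    set c : ℕ := (Finset.filter (fun k : Fin (N + 1) => j + 1 ≤ k.val) Finset.univ).card with hc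
    have hc0 : (c : ℚ) ≠ 0 := by
      have : 0 < c := Finset.card_pos.2 ⟨Fin.last N, by
        rw [Finset.mem_filter]; exact ⟨Finset.mem_univ _, by simp; omega⟩⟩
      exact_mod_cast this.ne'
    refine ⟨(c : ℚ)⁻¹ • (-(∑ k : Fin (N + 1),
      if hk : k.val < j + 1 then HH.map ℚ q (drop j ⟨k.val, hk⟩) a else 0)), ?_⟩
    rw [map_smul, map_neg, ← eq_neg_of_add_eq_zero_left h1, smul_smul, inv_mul_cancel₀ hc0,
      one_smul]

theorem inj : T_INJ := by
  intro Y _ y0 h N q
  rw [injective_iff_map_eq_zero]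
  intro z hz
  obtain ⟨a, ha⟩ := claim y0 h N q z hz N 0 (by omega)
  have h1 := rel y0 h 0 N q (by omega) a (by rw [ha]; exact hz)
  have h2 : ∀ k : Fin (N + 1), HH.map ℚ q ((proj N Y).comp ((drop N k).comp
      (ee y0 0 (N + 1)))) a = z := by
    intro k
    rw [drop_ee_ge y0 0 N (by omega) k (by omega), ha]
  simp only [h2] at h1
  rw [Finset.sum_const, ← Nat.cast_smul_eq_nsmul ℚ] at h1
  refine (smul_eq_zero.1 h1).resolve_left ?_
  rw [Finset.card_univ, Fintype.card_fin]
  exact_mod_cast Nat.succ_ne_zero N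

end

end Pool.Agent.H33.SP.INJ
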