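import Pool.Agent.H93.SP.Targets

/-!
# OM: the three sectors
-/

namespace Pool.Agent.H33.SP.OM

open Pool.Agent.H93.SPB

theorem cube_re (t : ℂ) : (t ^ 3).re = t.re ^ 3 - 3 * t.re * t.im ^ 2 := by
  simp only [pow_succ, pow_zero, one_mul, Complex.mul_re, Complex.mul_im]
  ring

theorem cube_im (t : ℂ) : (t ^ 3).im = 3 * t.re ^ 2 * t.im - t.im ^ 3 := by
  simp only [pow_succ, pow_zero, one_mul, Complex.mul_re, Complex.mul_im]
  ring

theorem bad_iff (t : ℂ) : (∃ s : ℝ, s ≤ 0 ∧ t ^ 3 = (s : ℂ)) ↔
    3 * t.re ^ 2 * t.im - t.im ^ 3 = 0 ∧ t.re ^ 3 - 3 * t.re * t.im ^ 2 ≤ 0 := by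
  constructor
  · rintro ⟨s, hs, h⟩
    have h1 := congrArg Complex.re h
    have h2 := congrArg Complex.im h
    rw [cube_re, Complex.ofReal_re] at h1
    rw [cube_im, Complex.ofReal_im] at h2
    exact ⟨h2, by rw [h1]; exact hs⟩
  · rintro ⟨h1, h2⟩
    refine ⟨t.re ^ 3 - 3 * t.re * t.im ^ 2, h2, ?_⟩
    apply Complex.ext
    · rw [cube_re, Complex.ofReal_re]
    · rw [cube_im, Complex.ofReal_im]; exact h1

theorem real_part (w x y : ℝ) (hw : w * w = 3) (hw0 : 0 < w) :
    (3 * x ^ 2 * y - y ^ 3 = 0 ∧ x ^ 3 - 3 * x * y ^ 2 ≤ 0) ↔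
    ¬ (y < w * x ∧ -y < w * x) ∧ ¬ (0 < y ∧ w * x < y) ∧ ¬ (0 < -y ∧ w * x < -y) := by
  constructor
  · rintro ⟨h1, h2⟩
    have h3 : y * ((w * x - y) * (w * x + y)) = 0 := by
      linear_combination h1 + x ^ 2 * y * hw
    refine ⟨?_, ?_, ?_⟩
    · rintro ⟨h4, h5⟩
      have hx : 0 < x := by
        have : 0 < w * x := by linarith
        exact (pos_iff_pos_of_mul_pos this).1 hw0
      have h6 : (w * x - y) * (w * x + y) ≠ 0 := by
        apply mul_ne_zero <;> linarith
      have h7 : y = 0 := (mul_eq_zero.1 h3).resolve_right h6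
      subst h7
      have : 0 < x ^ 3 := by positivity
      linarith
    · rintro ⟨h4, h5⟩
      have h6 : (w * x + y) = 0 := by
        rcases mul_eq_zero.1 h3 with h | h
        · linarith
        · rcases mul_eq_zero.1 h with h | h
          · linarith
          · exact h
      have hx : x < 0 := by
        by_contra hx
        have : 0 ≤ w * x := mul_nonneg hw0.le (not_lt.1 hx)
        linarith
      have h7 : y ^ 2 = 3 * x ^ 2 := by
        have : y = -(w * x) := by linarith
        rw [this]; linear_combination x ^ 2 * hw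
      have h8 : x ^ 3 - 3 * x * y ^ 2 = -8 * x ^ 3 := by rw [h7]; ring
      have h9 : 0 < -x := by linarith
      have h10 : 0 < (-x) ^ 3 := by positivity
      have h11 : (-x) ^ 3 = - x ^ 3 := by ring
      linarith
    · rintro ⟨h4, h5⟩
      have h6 : (w * x - y) = 0 := by
        rcases mul_eq_zero.1 h3 with h | h
        · linarith
        · rcases mul_eq_zero.1 h with h | h
          · exact h
          · linarith
      have hx : x < 0 := by
        by_contra hx
        have : 0 ≤ w * x := mul_nonneg hw0.le (not_lt.1 hx)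
        linarith
      have h7 : y ^ 2 = 3 * x ^ 2 := by
        have : y = (w * x) := by linarith
        rw [this]; linear_combination x ^ 2 * hw
      have h8 : x ^ 3 - 3 * x * y ^ 2 = -8 * x ^ 3 := by rw [h7]; ring
      have h9 : 0 < -x := by linarith
      have h10 : 0 < (-x) ^ 3 := by positivity
      have h11 : (-x) ^ 3 = - x ^ 3 := by ring
      linarith
  · rintro ⟨h1, h2, h3⟩
    rcases lt_trichotomy y 0 with hy | hy | hy
    · have h4 : -y ≤ w * x := by
        by_contra h; exact h3 ⟨by linarith, not_le.1 h⟩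
      have h5 : w * x ≤ -y := by
        by_contra h; exact h1 ⟨by linarith, not_le.1 h⟩
      have h6 : y = -(w * x) := by linarith
      have hx : 0 < x := by
        have : 0 < w * x := by linarith
        exact (pos_iff_pos_of_mul_pos this).1 hw0
      have h7 : y ^ 2 = 3 * x ^ 2 := by rw [h6]; linear_combination x ^ 2 * hw
      constructor
      · linear_combination -y * h7
      · have h8 : x ^ 3 - 3 * x * y ^ 2 = -8 * x ^ 3 := by rw [h7]; ring
        have : 0 < x ^ 3 := by positivity
        linarith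
    · subst hy
      have hx : x ≤ 0 := by
        by_contra hx
        have : 0 < w * x := mul_pos hw0 (not_le.1 hx)
        exact h1 ⟨by linarith, by linarith⟩
      constructor
      · ring
      · have h9 : 0 ≤ (-x) ^ 3 := pow_nonneg (by linarith) 3
        have h11 : (-x) ^ 3 = - x ^ 3 := by ring
        linarith
    · have h4 : y ≤ w * x := by
        by_contra h; exact h2 ⟨by linarith, not_le.1 h⟩
      have h5 : w * x ≤ y := by
        by_contra h; exact h1 ⟨not_le.1 h, by linarith⟩
      have h6 : y = w * x := by linarith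
      have hx : 0 < x := by
        have : 0 < w * x := by linarith
        exact (pos_iff_pos_of_mul_pos this).1 hw0
      have h7 : y ^ 2 = 3 * x ^ 2 := by rw [h6]; linear_combination x ^ 2 * hw
      constructor
      · linear_combination -y * h7
      · have h8 : x ^ 3 - 3 * x * y ^ 2 = -8 * x ^ 3 := by rw [h7]; ring
        have : 0 < x ^ 3 := by positivity
        linarith

theorem Om_eq (j : Fin 3) : ∃ c d c' d' : ℝ, Om j =
    {t : ℂ | 0 < c * t.re + d * t.im} ∩ {t : ℂ | 0 < c' * t.re + d' * t.im} := by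
  fin_cases j
  · refine ⟨√3, -1, √3, 1, ?_⟩
    ext t
    constructor
    · rintro ⟨h1, h2⟩
      exact ⟨Set.mem_setOf_eq ▸ (by linarith), Set.mem_setOf_eq ▸ (by linarith)⟩
    · rintro ⟨h1, h2⟩
      rw [Set.mem_setOf_eq] at h1 h2
      exact ⟨by linarith, by linarith⟩
  · refine ⟨0, 1, -√3, 1, ?_⟩
    ext t
    constructor
    · rintro ⟨h1, h2⟩
      exact ⟨Set.mem_setOf_eq ▸ (by linarith), Set.mem_setOf_eq ▸ (by linarith)⟩
    · rintro ⟨h1, h2⟩
      rw [Set.mem_setOf_eq] at h1 h2
      exact ⟨by linarith, by linarith⟩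
  · refine ⟨0, -1, -√3, -1, ?_⟩
    ext t
    constructor
    · rintro ⟨h1, h2⟩
      exact ⟨Set.mem_setOf_eq ▸ (by linarith), Set.mem_setOf_eq ▸ (by linarith)⟩
    · rintro ⟨h1, h2⟩
      rw [Set.mem_setOf_eq] at h1 h2
      exact ⟨by linarith, by linarith⟩

theorem om : T_OM := by
  have hw : √3 * √3 = 3 := Real.mul_self_sqrt (by norm_num)
  have hw0 : 0 < √3 := Real.sqrt_pos.2 (by norm_num)
  refine ⟨?_, ?_, ?_, ?_, ?_, ?_, ?_, ?_, ?_, ?_, ?_⟩
  · intro t
    rw [bad_iff, real_part (√3) t.re t.im hw hw0]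
    constructor
    · intro h
      by_contra h'
      apply h
      refine ⟨fun h0 => h' ⟨0, h0⟩, fun h0 => h' ⟨1, h0⟩, fun h0 => h' ⟨2, h0⟩⟩
    · rintro ⟨j, hj⟩ ⟨h0, h1, h2⟩
      fin_cases j
      · exact h0 hj
      · exact h1 hj
      · exact h2 hj
  · intro j
    obtain ⟨c, d, c', d', h⟩ := Om_eq j
    rw [h]
    exact (isOpen_lt continuous_const (by fun_prop)).inter
      (isOpen_lt continuous_const (by fun_prop))
  · intro j
    obtain ⟨c, d, c', d', h⟩ := Om_eq j
    rw [h]
    have key : ∀ (c d : ℝ), Convex ℝ {t : ℂ | 0 < c * t.re + d * t.im} := by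
      intro c d
      have : {t : ℂ | 0 < c * t.re + d * t.im} =
          {t : ℂ | 0 < (c • Complex.reLm + d • Complex.imLm) t} := by
        ext t; simp
      rw [this]
      exact convex_halfSpace_gt (LinearMap.isLinear _) 0
    exact (key _ _).inter (key _ _)
  · intro j t ht r hr
    fin_cases j
    · obtain ⟨h1, h2⟩ := ht
      constructor
      · change ((r : ℂ) * t).im < √3 * ((r : ℂ) * t).re
        rw [Complex.re_ofReal_mul, Complex.im_ofReal_mul]
        nlinarith
      · change -((r : ℂ) * t).im < √3 * ((r : ℂ) * t).re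
        rw [Complex.re_ofReal_mul, Complex.im_ofReal_mul]
        nlinarith
    · obtain ⟨h1, h2⟩ := ht
      constructor
      · change 0 < ((r : ℂ) * t).im
        rw [Complex.im_ofReal_mul]
        positivity
      · change √3 * ((r : ℂ) * t).re < ((r : ℂ) * t).im
        rw [Complex.re_ofReal_mul, Complex.im_ofReal_mul]
        nlinarith
    · obtain ⟨h1, h2⟩ := ht
      constructor
      · change 0 < -((r : ℂ) * t).im
        rw [Complex.im_ofReal_mul]
        nlinarith
      · change √3 * ((r : ℂ) * t).re < -((r : ℂ) * t).im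
        rw [Complex.re_ofReal_mul, Complex.im_ofReal_mul]
        nlinarith
  · exact ⟨by simp, by simp⟩
  · exact ⟨by simp, by simp⟩
  · exact ⟨by simp, by simp⟩
  · rintro t ⟨h1, _⟩; exact h1
  · rintro t ⟨_, h1⟩; exact h1
  · rintro t ⟨_, h1⟩; linarith
  · rintro t ⟨_, h1⟩; linarith

end Pool.Agent.H33.SP.OM
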