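import Pool.Agent.H93.SP.Targets

/-!
# SPH: symmetric products and homotopies
-/

namespace Pool.Agent.H33.SP.SPH

open Topology Set
open scoped unitInterval
open Pool.Agent.H59 Pool.Agent.H64.LB Pool.Agent.H93.SPB

/-- descent of a symmetric family of maps to the symmetric product -/
theorem desc {Y X' : Type} [TopologicalSpace Y] [TopologicalSpace X'] {N : ℕ}
    (F : C(I × (Fin N → Y), X')) (hF : ∀ t x (s : Equiv.Perm (Fin N)), F (t, x ∘ s) = F (t, x)) :
    ∃ G : C(I × SP N Y, X'), ∀ t x, G (t, proj N Y x) = F (t, x) := by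
  have hq : IsOpenQuotientMap (proj N Y) :=
    ⟨proj_surjective N Y, (proj N Y).continuous, proj_isOpenMap N Y⟩
  have hq2 : IsQuotientMap (Prod.map (id : I → I) (proj N Y)) :=
    ((IsOpenQuotientMap.id).prodMap hq).isQuotientMap
  have hfac : Function.FactorsThrough F (Prod.map (id : I → I) (proj N Y)) := by
    rintro ⟨t, x⟩ ⟨t', x'⟩ h
    obtain ⟨h1, h2⟩ := Prod.mk.inj h
    obtain ⟨s, hs⟩ := proj_eq_iff.1 h2
    have h1' : t = t' := h1
    rw [← h1', hs, hF]
  obtain ⟨G, hG⟩ : ∃ G : I × SP N Y → X', ∀ p, G (Prod.map (id : I → I) (proj N Y) p) = F p :=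
    ⟨fun z => F (Function.surjInv hq2.surjective z), fun p =>
      hfac (Function.surjInv_eq hq2.surjective _)⟩
  refine ⟨⟨G, ?_⟩, fun t x => hG (t, x)⟩
  rw [hq2.continuous_iff]
  have : G ∘ Prod.map (id : I → I) (proj N Y) = F := funext hG
  rw [this]
  exact F.continuous

theorem sph : T_SPH := by
  intro Y Y' _ _ f g ⟨H⟩ N
  let F : C(I × (Fin N → Y), SP N Y) :=
    (proj N Y).comp ⟨fun p i => H (p.1, p.2 i), by fun_prop⟩
  obtain ⟨G, hG⟩ := desc F (by
    intro t x s
    exact proj_perm s (fun i => H (t, x i)))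
  refine ⟨⟨G, ?_, ?_⟩⟩
  · intro z
    obtain ⟨x, rfl⟩ := proj_surjective N Y z
    refine (hG 0 x).trans ?_
    change proj N Y (fun i => H (0, x i)) = spMap N g (spMap N f (proj N Y x))
    rw [spMap_proj, spMap_proj]
    congr 1
    funext i
    exact H.apply_zero (x i)
  · intro z
    obtain ⟨x, rfl⟩ := proj_surjective N Y z
    refine (hG 1 x).trans ?_
    change proj N Y (fun i => H (1, x i)) = proj N Y x
    congr 1
    funext i
    exact H.apply_one (x i)

theorem add : T_ADD := by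
  intro Y _ y0 y1 hj N
  obtain ⟨c⟩ := hj
  have hc : Continuous fun p : I × (Fin N → Y) =>
      (Fin.snoc (α := fun _ => Y) p.2 (c p.1) : Fin (N + 1) → Y) := by
    refine continuous_pi fun i => ?_
    refine Fin.lastCases ?_ (fun j => ?_) i
    · simp only [Fin.snoc_last]
      fun_prop
    · simp only [Fin.snoc_castSucc]
      fun_prop
  let F : C(I × (Fin N → Y), SP (N + 1) Y) := (proj (N + 1) Y).comp ⟨_, hc⟩
  obtain ⟨G, hG⟩ := desc F (by
    intro t x s
    change proj (N + 1) Y (Fin.snoc (α := fun _ => Y) (x ∘ s) (c t)) =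
      proj (N + 1) Y (Fin.snoc (α := fun _ => Y) x (c t))
    rw [snoc_comp, proj_perm])
  refine ⟨⟨G, ?_, ?_⟩⟩
  · intro z
    obtain ⟨x, rfl⟩ := proj_surjective N Y z
    refine (hG 0 x).trans ?_
    change proj (N + 1) Y (Fin.snoc (α := fun _ => Y) x (c 0)) = proj (N + 1) Y (snocC y0 N x)
    rw [c.source]; rfl
  · intro z
    obtain ⟨x, rfl⟩ := proj_surjective N Y z
    refine (hG 1 x).trans ?_
    change proj (N + 1) Y (Fin.snoc (α := fun _ => Y) x (c 1)) = proj (N + 1) Y (snocC y1 N x)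
    rw [c.target]; rfl

end Pool.Agent.H33.SP.SPH
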